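import Pool.Agent.H70.EH.Targets

/-!
MP_0f8dca_lc, interactive proofs: functions with small second level do not distinguish the forrelated
and the uniform distribution (absolute version for the distributions `mv`).
-/

set_option autoImplicit false

namespace Pool.Agent.H76.IP

open Finset Pool.Agent.H6.NB
open Pool.Agent.H70.EH (mv dm Tm T_WLM T_MUV)

/-- ABS: one copy, absolute version. -/
def T_ABS : Prop := ∀ (q : ℕ) (F : (VV q → Bool) → ℝ) (Λ : ℝ), 10 ≤ q → (∀ ρ, L12 (rst ρ F) ≤ Λ) →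
  (∀ y, |F y| ≤ 1) → |∑ p, (mv true q p - mv false q p) * F p| ≤ Λ / √(2 ^ q) + 1 / 2 ^ 2 ^ (q - 2)

theorem card_r (q : ℕ) : (Fintype.card ((Fin q → Bool) → Bool) : ℝ) = 2 ^ 2 ^ q := by
  rw [Fintype.card_fun, Fintype.card_fun, Fintype.card_bool, Fintype.card_fin]
  push_cast
  rfl

theorem AA_of_le (q : ℕ) (δ : ℝ) (G : (VV q → ℝ) → ℝ) (W : VV q → ℝ) (hW : ∀ v, |W v| ≤ 1 / 2) :
    AA q δ G W = (∑ r : (Fin q → Bool) → Bool, G (fun v => W v + δ * dir q r v)) / 2 ^ 2 ^ q := by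
  have h : ∀ r : (Fin q → Bool) → Bool, stp q δ W r = fun v => W v + δ * dir q r v := by
    intro r
    unfold stp
    rw [if_pos hW]
  unfold AA
  simp only [h]

theorem AA_of_not (q : ℕ) (δ : ℝ) (G : (VV q → ℝ) → ℝ) (W : VV q → ℝ)
    (hW : ¬ ∀ v, |W v| ≤ 1 / 2) : AA q δ G W = G W := by
  have h : ∀ r : (Fin q → Bool) → Bool, stp q δ W r = W := by
    intro r
    unfold stp
    rw [if_neg hW]
  unfold AA
  simp only [h]
  rw [Finset.sum_const, Finset.card_univ, nsmul_eq_mul, card_r]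
  field_simp

theorem iter_add_const (h2 : T_WLK) (q : ℕ) (δ : ℝ) (hδ : 0 ≤ δ) (hδ2 : δ * √(2 ^ q) ≤ 1 / 2)
    (n : ℕ) (G : (VV q → ℝ) → ℝ) (c : ℝ) (W : VV q → ℝ) :
    (AA q δ)^[n] (fun W => G W + c) W = (AA q δ)^[n] G W + c := by
  have h := h2 q δ hδ hδ2
  have h3 := h.2.2.1 n Bool (fun _ => 1) (fun b => if b then G else fun _ => c) W
  have e : (fun W : VV q → ℝ => G W + c) = fun W => ∑ b : Bool, (1 : ℝ) *
      (if b then G else fun _ => c) W := by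
    funext W
    rw [Fintype.sum_bool]
    simp
  rw [e, h3, Fintype.sum_bool]
  simp only [if_true, Bool.false_eq_true, if_false, one_mul]
  rw [h.2.2.2 n c W]

theorem step (h2 : T_WLK) (q : ℕ) (δ : ℝ) (hδ : 0 ≤ δ) (hδ2 : δ * √(2 ^ q) ≤ 1 / 2)
    (n : ℕ) (G : (VV q → ℝ) → ℝ) (B : ℝ)
    (hB : ∀ W, (∀ v, |W v| ≤ 1) → |AA q δ G W - G W| ≤ B) :
    |(AA q δ)^[n + 1] G (fun _ => 0) - (AA q δ)^[n] G (fun _ => 0)| ≤ B := by
  have h := h2 q δ hδ hδ2
  rw [Function.iterate_succ_apply, abs_le]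
  have h0 : ∀ v : VV q, |(fun _ => (0 : ℝ)) v| ≤ 1 := fun v => by simp
  constructor
  · have h3 := h.2.1 n (fun W => G W + -B) (AA q δ G) (fun W hW => by
      have := (abs_le.1 (hB W hW)).1
      linarith) (fun _ => 0) h0
    rw [iter_add_const h2 q δ hδ hδ2] at h3
    linarith
  · have h3 := h.2.1 n (AA q δ G) (fun W => G W + B) (fun W hW => by
      have := (abs_le.1 (hB W hW)).2
      linarith) (fun _ => 0) h0
    rw [iter_add_const h2 q δ hδ hδ2] at h3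
    linarith

theorem total (h2 : T_WLK) (q : ℕ) (δ : ℝ) (hδ : 0 ≤ δ) (hδ2 : δ * √(2 ^ q) ≤ 1 / 2)
    (G : (VV q → ℝ) → ℝ) (B : ℝ)
    (hB : ∀ W, (∀ v, |W v| ≤ 1) → |AA q δ G W - G W| ≤ B) (n : ℕ) :
    |(AA q δ)^[n] G (fun _ => 0) - G (fun _ => 0)| ≤ n * B := by
  induction n with
  | zero => simp
  | succ n ih =>
    have h1 := step h2 q δ hδ hδ2 n G B hB
    have h3 := abs_sub_le ((AA q δ)^[n + 1] G (fun _ => 0)) ((AA q δ)^[n] G (fun _ => 0))
      (G (fun _ => 0))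
    push_cast
    linarith

theorem pf_ABS (h1 : T_STE) (h2 : T_WLM) (h3 : T_MUV) (h4 : T_WLK) : T_ABS := by
  intro q F Λ hq hL hF
  obtain ⟨hd0, hTd, hds, hw⟩ := h2 q
  obtain ⟨hx1, hTx⟩ := hw hq
  have hs0 : 0 < √((2 : ℝ) ^ q) := Real.sqrt_pos.2 (by positivity)
  have hΛ : 0 ≤ Λ := by
    refine le_trans ?_ (hL fun _ => none)
    unfold L12
    exact Finset.sum_nonneg (fun S _ => abs_nonneg _)
  have he : eps2 q ≤ 1 / 24 := by
    unfold eps2
    apply one_div_le_one_div_of_le (by norm_num)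
    have : (0 : ℝ) ≤ q := Nat.cast_nonneg q
    linarith
  have hx0 : 0 ≤ 4 * dm q * (2 ^ q * √(2 ^ q)) := by positivity
  have hB : ∀ W, (∀ v, |W v| ≤ 1) → |AA q (dm q) (mle F) W - mle F W| ≤
      4 * dm q ^ 2 * Λ / √(2 ^ q) + (4 * dm q * (2 ^ q * √(2 ^ q))) ^ 3 := by
    intro W _
    by_cases hW : ∀ v, |W v| ≤ 1 / 2
    · rw [AA_of_le q (dm q) (mle F) W hW]
      exact h1 q F Λ (dm q) W hL hF hW hd0 hx1
    · rw [AA_of_not q (dm q) (mle F) W hW, sub_self, abs_zero]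
      positivity
  have htot := total h4 q (dm q) hd0 hds (mle F) _ hB (Tm q)
  have hsum : ∑ p, (mv true q p - mv false q p) * F p =
      (AA q (dm q))^[Tm q] (mle F) (fun _ => 0) - mle F (fun _ => 0) := by
    have e1 := (h3 true q).2.2 F
    have e2 := (h3 false q).2.2 F
    simp only [if_true, Bool.false_eq_true, if_false] at e1 e2
    rw [← e1, ← e2, ← Finset.sum_sub_distrib]
    exact Finset.sum_congr rfl (fun p _ => by ring)
  rw [hsum]
  refine le_trans htot ?_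
  have h5 : (Tm q : ℝ) * (4 * dm q ^ 2 * Λ / √(2 ^ q) + (4 * dm q * (2 ^ q * √(2 ^ q))) ^ 3) =
      4 * (Tm q * dm q ^ 2) * (Λ / √(2 ^ q)) +
        (Tm q : ℝ) * (4 * dm q * (2 ^ q * √(2 ^ q))) ^ 3 := by ring
  rw [h5, hTd]
  have h6 : 0 ≤ Λ / √(2 ^ q) := div_nonneg hΛ hs0.le
  have h7 : 4 * eps2 q * (Λ / √(2 ^ q)) ≤ 1 * (Λ / √(2 ^ q)) :=
    mul_le_mul_of_nonneg_right (by linarith) h6
  linarith

end Pool.Agent.H76.IP
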