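import Pool.Agent.H66.IP.TA

/-!
MP_0f8dca_lc, board ipf_modules, row RTR: a game with some of the variables fixed is a game.
-/

set_option autoImplicit false

namespace Pool.Agent.H76.IP

open Finset Pool.Agent.H66.IP
open Pool.Agent.H6.NB (rst)

open Classical in
theorem pf_RTR : T_RTR := by
  intro V _ t ρ
  induction t with
  | lf c τ =>
    set c' : Bool := c && decide (∀ v b b', τ v = some b → ρ v = some b' → b' = b) with hc'
    set τ' : V → Option Bool := fun v => if ρ v = none then τ v else none with hτ'
    have key : ∀ y : V → Bool, lv c' τ' y = rst ρ (lv c τ) y := by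
      intro y
      change lv c' τ' y = lv c τ fun v => (ρ v).getD (y v)
      unfold lv
      have hiff : (c' = true ∧ ∀ v b, τ' v = some b → y v = b) ↔
          (c = true ∧ ∀ v b, τ v = some b → (ρ v).getD (y v) = b) := by
        rw [hc', Bool.and_eq_true, decide_eq_true_eq]
        constructor
        · rintro ⟨⟨h1, h2⟩, h3⟩
          refine ⟨h1, fun v b hv => ?_⟩
          cases hr : ρ v with
          | none =>
            have h4 : τ' v = some b := by simp only [hτ', hr, if_true]; exact hv
            simpa using h3 v b h4
          | some b' =>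
            simpa using h2 v b b' hv hr
        · rintro ⟨h1, h2⟩
          refine ⟨⟨h1, fun v b b' hv hr => ?_⟩, fun v b hv => ?_⟩
          · have h3 := h2 v b hv
            rw [hr] at h3
            simpa using h3
          · by_cases hr : ρ v = none
            · simp only [hτ', hr, if_true] at hv
              have h3 := h2 v b hv
              rw [hr] at h3
              simpa using h3
            · simp only [hτ', hr, if_false] at hv
              exact absurd hv (by simp)
      by_cases h : c = true ∧ ∀ v b, τ v = some b → (ρ v).getD (y v) = b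
      · rw [if_pos h, if_pos (hiff.2 h)]
      · rw [if_neg h, if_neg (fun h' => h (hiff.1 h'))]
    refine ⟨Tr.lf c' τ', le_refl _, le_refl _, ?_, key, fun β y => key y⟩
    change (univ.filter fun v => τ' v ≠ none).card ≤ (univ.filter fun v => τ v ≠ none).card
    apply Finset.card_le_card
    intro v hv
    rw [Finset.mem_filter] at hv ⊢
    refine ⟨hv.1, fun h => hv.2 ?_⟩
    simp only [hτ']
    split_ifs <;> simp [h]
  | av l r ihl ihr =>
    obtain ⟨l', a1, a2, a3, a4, a5⟩ := ihl
    obtain ⟨r', b1, b2, b3, b4, b5⟩ := ihr
    refine ⟨Tr.av l' r', max_le_max a1 b1, Nat.add_le_add_right (max_le_max a2 b2) 1,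
      max_le_max a3 b3, fun y => ?_, fun β y => ?_⟩
    · change (l'.ev y + r'.ev y) / 2 = _
      rw [a4, b4]; rfl
    · change (l'.sv β y + r'.sv β y) / 2 = _
      rw [a5, b5]; rfl
  | ch l r ihl ihr =>
    obtain ⟨l', a1, a2, a3, a4, a5⟩ := ihl
    obtain ⟨r', b1, b2, b3, b4, b5⟩ := ihr
    refine ⟨Tr.ch l' r', Nat.add_le_add_right (max_le_max a1 b1) 1,
      Nat.add_le_add_right (max_le_max a2 b2) 1, max_le_max a3 b3, fun y => ?_, fun β y => ?_⟩
    · change max (l'.ev y) (r'.ev y) = _
      rw [a4, b4]; rfl
    · change smx β (l'.sv β y) (r'.sv β y) = _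
      rw [a5, b5]; rfl

end Pool.Agent.H76.IP
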