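import Pool.Agent.H66.IP.TA

/-!
MP_0f8dca_lc, board ipf_modules, row SBT: substitution in games.
-/

set_option autoImplicit false

namespace Pool.Agent.H76.IP

open Finset Pool.Agent.H66.IP
open Pool.Agent.H6.NB (rst)

open Classical in
theorem pf_SBT : T_SBT := by
  intro V X _ _ t s
  induction t with
  | lf c τ =>
    set P : Prop := (∀ v b b', τ v = some b → s v = Sum.inl b' → b' = b) ∧
      ∀ v v' b b' x, τ v = some b → τ v' = some b' → s v = Sum.inr x → s v' = Sum.inr x → b = b'
      with hP
    set c' : Bool := c && decide P with hc'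
    set τ' : X → Option Bool := fun x =>
      if h : ∃ v, s v = Sum.inr x ∧ τ v ≠ none then τ h.choose else none with hτ'
    have hτ1 : ∀ x b, τ' x = some b → ∃ v, s v = Sum.inr x ∧ τ v = some b := by
      intro x b h
      simp only [hτ'] at h
      split_ifs at h with h1
      exact ⟨h1.choose, h1.choose_spec.1, h⟩
    have hτ2 : ∀ x v b, s v = Sum.inr x → τ v = some b → ∃ b', τ' x = some b' := by
      intro x v b hs hv
      have h1 : ∃ v, s v = Sum.inr x ∧ τ v ≠ none := ⟨v, hs, by rw [hv]; simp⟩
      obtain ⟨b', hb'⟩ := Option.ne_none_iff_exists'.1 h1.choose_spec.2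
      refine ⟨b', ?_⟩
      simp only [hτ']
      rw [dif_pos h1]; exact hb'
    have key : ∀ y : X → Bool, lv c' τ' y = lv c τ fun v => Sum.elim id y (s v) := by
      intro y
      unfold lv
      have hiff : (c' = true ∧ ∀ x b, τ' x = some b → y x = b) ↔
          (c = true ∧ ∀ v b, τ v = some b → Sum.elim id y (s v) = b) := by
        rw [hc', Bool.and_eq_true, decide_eq_true_eq]
        constructor
        · rintro ⟨⟨h1, h2, h3⟩, h4⟩
          refine ⟨h1, fun v b hv => ?_⟩
          cases hs : s v with
          | inl b' => simpa using h2 v b b' hv hs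
          | inr x =>
            obtain ⟨b', hb'⟩ := hτ2 x v b hs hv
            obtain ⟨v', hs', hv'⟩ := hτ1 x b' hb'
            have h5 := h3 v v' b b' x hv hv' hs hs'
            rw [h5]
            simpa using h4 x b' hb'
        · rintro ⟨h1, h2⟩
          refine ⟨⟨h1, fun v b b' hv hs => ?_, fun v v' b b' x hv hv' hs hs' => ?_⟩,
            fun x b hx => ?_⟩
          · have h3 := h2 v b hv
            rw [hs] at h3
            simpa using h3
          · have h3 := h2 v b hv
            have h4 := h2 v' b' hv'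
            rw [hs] at h3
            rw [hs'] at h4
            rw [← h3, ← h4]
          · obtain ⟨v, hs, hv⟩ := hτ1 x b hx
            have h3 := h2 v b hv
            rw [hs] at h3
            simpa using h3
      by_cases h : c = true ∧ ∀ v b, τ v = some b → Sum.elim id y (s v) = b
      · rw [if_pos h, if_pos (hiff.2 h)]
      · rw [if_neg h, if_neg (fun h' => h (hiff.1 h'))]
    refine ⟨Tr.lf c' τ', rfl, rfl, ?_, key⟩
    change (univ.filter fun x => τ' x ≠ none).card ≤ (univ.filter fun v => τ v ≠ none).card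
    have hsub : ((univ.filter fun x => τ' x ≠ none).image fun x => (Sum.inr x : Bool ⊕ X)) ⊆
        (univ.filter fun v => τ v ≠ none).image s := by
      intro z hz
      rw [Finset.mem_image] at hz
      obtain ⟨x, hx, rfl⟩ := hz
      rw [Finset.mem_filter] at hx
      obtain ⟨b, hb⟩ := Option.ne_none_iff_exists'.1 hx.2
      obtain ⟨v, hs, hv⟩ := hτ1 x b hb
      rw [Finset.mem_image]
      exact ⟨v, by rw [Finset.mem_filter]; exact ⟨Finset.mem_univ _, by rw [hv]; simp⟩, hs⟩
    have h1 := Finset.card_le_card hsub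
    rw [Finset.card_image_of_injective _ Sum.inr_injective] at h1
    exact h1.trans Finset.card_image_le
  | av l r ihl ihr =>
    obtain ⟨l', a1, a2, a3, a4⟩ := ihl
    obtain ⟨r', b1, b2, b3, b4⟩ := ihr
    refine ⟨Tr.av l' r', ?_, ?_, max_le_max a3 b3, fun y => ?_⟩
    · change max l'.cc r'.cc = max l.cc r.cc
      rw [a1, b1]
    · change max l'.dp r'.dp + 1 = max l.dp r.dp + 1
      rw [a2, b2]
    · change (l'.ev y + r'.ev y) / 2 = _
      rw [a4, b4]; rfl
  | ch l r ihl ihr =>
    obtain ⟨l', a1, a2, a3, a4⟩ := ihl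
    obtain ⟨r', b1, b2, b3, b4⟩ := ihr
    refine ⟨Tr.ch l' r', ?_, ?_, max_le_max a3 b3, fun y => ?_⟩
    · change max l'.cc r'.cc + 1 = max l.cc r.cc + 1
      rw [a1, b1]
    · change max l'.dp r'.dp + 1 = max l.dp r.dp + 1
      rw [a2, b2]
    · change max (l'.ev y) (r'.ev y) = _
      rw [a4, b4]; rfl

end Pool.Agent.H76.IP
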