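import Pool.Agent.H69.IP.Core
import Pool.Agent.H6.NB.Defs

/-!
MP_0f8dca_lc, interactive proofs: the second level of the Fourier spectrum of the soft value.
-/

set_option autoImplicit false

namespace Pool.Agent.H76.IP

open Finset Pool.Agent.H69.IP
open Pool.Agent.H6.NB (sg hat L12 rst)

variable {V : Type} [Fintype V] [DecidableEq V]

theorem fl_fl (x : V) (b : V → Bool) : fl x (fl x b) = b := by
  unfold fl; funext v
  by_cases h : v = x
  · subst h; simp
  · simp [Function.update_of_ne h]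

theorem fl_comm (x y : V) (b : V → Bool) : fl x (fl y b) = fl y (fl x b) := by
  by_cases hxy : x = y
  · subst hxy; rfl
  · unfold fl; funext v
    by_cases hx : v = x
    · subst hx; simp [Function.update_of_ne hxy]
    · by_cases hy : v = y
      · subst hy; simp [Function.update_of_ne hx]
      · simp [Function.update_of_ne hx, Function.update_of_ne hy]

theorem sum_fl (x : V) (G : (V → Bool) → ℝ) : ∑ b, G (fl x b) = ∑ b, G b := by
  have hinv : Function.Involutive (fl x : (V → Bool) → (V → Bool)) := fl_fl x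
  exact Equiv.sum_comp (hinv.toPerm) G

/-- The Fourier character. -/
theorem chi_fl (x : V) (S : Finset V) (hx : x ∈ S) (b : V → Bool) :
    ∏ u ∈ S, sg (fl x b u) = -∏ u ∈ S, sg (b u) := by
  rw [← Finset.mul_prod_erase S _ hx, ← Finset.mul_prod_erase S (fun u => sg (b u)) hx]
  have h1 : sg (fl x b x) = -sg (b x) := by
    unfold fl sg; simp only [Function.update_self]; cases b x <;> simp
  have h2 : ∏ u ∈ S.erase x, sg (fl x b u) = ∏ u ∈ S.erase x, sg (b u) := by
    apply Finset.prod_congr rfl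
    intro u hu
    unfold fl
    rw [Function.update_of_ne (Finset.ne_of_mem_erase hu)]
  rw [h1, h2]; ring

theorem abs_chi (S : Finset V) (b : V → Bool) : |∏ u ∈ S, sg (b u)| = 1 := by
  rw [Finset.abs_prod]
  apply Finset.prod_eq_one
  intro u _
  unfold sg; split_ifs <;> simp

/-- The coefficient of order two and the mixed difference. -/
theorem hat_DD (x y : V) (hxy : x ≠ y) (G : (V → Bool) → ℝ) :
    4 * ∑ b, G b * ∏ u ∈ ({x, y} : Finset V), sg (b u) =
      ∑ b, DD x y G b * ∏ u ∈ ({x, y} : Finset V), sg (b u) := by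
  have hx : x ∈ ({x, y} : Finset V) := by simp
  have hy : y ∈ ({x, y} : Finset V) := by simp
  have e1 : ∑ b, G (fl x b) * ∏ u ∈ ({x, y} : Finset V), sg (b u) =
      -∑ b, G b * ∏ u ∈ ({x, y} : Finset V), sg (b u) := by
    rw [← sum_fl x fun b => G b * ∏ u ∈ ({x, y} : Finset V), sg (b u), ← Finset.sum_neg_distrib]
    apply Finset.sum_congr rfl
    intro b _
    rw [chi_fl x _ hx]; ring
  have e2 : ∑ b, G (fl y b) * ∏ u ∈ ({x, y} : Finset V), sg (b u) =
      -∑ b, G b * ∏ u ∈ ({x, y} : Finset V), sg (b u) := by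
    rw [← sum_fl y fun b => G b * ∏ u ∈ ({x, y} : Finset V), sg (b u), ← Finset.sum_neg_distrib]
    apply Finset.sum_congr rfl
    intro b _
    rw [chi_fl y _ hy]; ring
  have e3 : ∑ b, G (fl x (fl y b)) * ∏ u ∈ ({x, y} : Finset V), sg (b u) =
      ∑ b, G b * ∏ u ∈ ({x, y} : Finset V), sg (b u) := by
    rw [← sum_fl y fun b => G (fl x (fl y b)) * ∏ u ∈ ({x, y} : Finset V), sg (b u)]
    rw [← sum_fl x fun b => G b * ∏ u ∈ ({x, y} : Finset V), sg (b u)]
    apply Finset.sum_congr rfl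
    intro b _
    rw [chi_fl y _ hy, chi_fl x _ hx, fl_fl]
  have e4 : ∑ b, DD x y G b * ∏ u ∈ ({x, y} : Finset V), sg (b u) =
      ∑ b, G b * ∏ u ∈ ({x, y} : Finset V), sg (b u) -
      ∑ b, G (fl x b) * ∏ u ∈ ({x, y} : Finset V), sg (b u) -
      ∑ b, G (fl y b) * ∏ u ∈ ({x, y} : Finset V), sg (b u) +
      ∑ b, G (fl x (fl y b)) * ∏ u ∈ ({x, y} : Finset V), sg (b u) := by
    rw [← Finset.sum_sub_distrib, ← Finset.sum_sub_distrib, ← Finset.sum_add_distrib]
    apply Finset.sum_congr rfl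
    intro b _
    unfold DD; ring
  rw [e4, e1, e2, e3]; ring

theorem abs_hat_le (x y : V) (hxy : x ≠ y) (G : (V → Bool) → ℝ) :
    |hat G {x, y}| ≤ (∑ b, |DD x y G b|) / 4 / 2 ^ Fintype.card V := by
  have h := hat_DD x y hxy G
  unfold hat
  rw [abs_div, abs_of_pos (by positivity : (0 : ℝ) < 2 ^ Fintype.card V)]
  apply div_le_div_of_nonneg_right _ (by positivity)
  have h2 : ∑ b, G b * ∏ u ∈ ({x, y} : Finset V), sg (b u) =
      (∑ b, DD x y G b * ∏ u ∈ ({x, y} : Finset V), sg (b u)) / 4 := by linarith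
  rw [h2, abs_div, abs_of_pos (by norm_num : (0 : ℝ) < 4)]
  apply div_le_div_of_nonneg_right _ (by norm_num)
  refine (Finset.abs_sum_le_sum_abs _ _).trans ?_
  apply Finset.sum_le_sum
  intro b _
  rw [abs_mul, abs_chi, mul_one]

/-- The restricted point. -/
def rp (ρ : V → Option Bool) (b : V → Bool) : V → Bool := fun v => (ρ v).getD (b v)

omit [Fintype V] in
theorem rp_fl_none (ρ : V → Option Bool) (x : V) (h : ρ x = none) (b : V → Bool) :
    rp ρ (fl x b) = fl x (rp ρ b) := by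
  unfold rp fl; funext v
  by_cases hv : v = x
  · subst hv; simp [h]
  · simp [Function.update_of_ne hv]

omit [Fintype V] in
theorem rp_fl_some (ρ : V → Option Bool) (x : V) (h : ρ x ≠ none) (b : V → Bool) :
    rp ρ (fl x b) = rp ρ b := by
  unfold rp fl; funext v
  by_cases hv : v = x
  · subst hv
    obtain ⟨a, ha⟩ := Option.ne_none_iff_exists'.1 h
    simp [ha]
  · simp [Function.update_of_ne hv]

theorem L12_le_pairs (G : (V → Bool) → ℝ) :
    L12 G ≤ ∑ p ∈ (univ : Finset V).offDiag, |hat G {p.1, p.2}| := by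
  unfold L12
  have hmap : ∀ p ∈ (univ : Finset V).offDiag,
      ({p.1, p.2} : Finset V) ∈ powersetCard 2 (univ : Finset V) := by
    intro p hp
    rw [Finset.mem_offDiag] at hp
    rw [Finset.mem_powersetCard]
    exact ⟨Finset.subset_univ _, Finset.card_pair hp.2.2⟩
  rw [← Finset.sum_fiberwise_of_maps_to hmap]
  apply Finset.sum_le_sum
  intro S hS
  rw [Finset.mem_powersetCard, Finset.card_eq_two] at hS
  obtain ⟨_, a, b, hab, rfl⟩ := hS
  refine Finset.single_le_sum (f := fun p : V × V => |hat G {p.1, p.2}|)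
    (s := (univ : Finset V).offDiag.filter fun p => ({p.1, p.2} : Finset V) = {a, b})
    (fun p _ => abs_nonneg _) (a := (a, b)) ?_
  rw [Finset.mem_filter, Finset.mem_offDiag]
  exact ⟨⟨Finset.mem_univ _, Finset.mem_univ _, hab⟩, rfl⟩

/-- L12V: the second level of all restrictions of the soft value. -/
def T_L12V : Prop := ∃ K : ℝ, 0 < K ∧
  ∀ (V : Type) [Fintype V] [DecidableEq V] (β : ℝ) (q d : ℕ) (t : GT V),
  1 ≤ β → 1 ≤ d → Ok q t d → ∀ ρ : V → Option Bool,
    L12 (rst ρ (val β t)) ≤ K * β ^ 3 * d ^ 4 * q ^ 2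

theorem pf_L12V (hS : T_SUM) (hD : T_DDX) : T_L12V := by
  obtain ⟨K, hK, hD⟩ := hD
  refine ⟨8 * K, by positivity, ?_⟩
  intro V _ _ β q d t hβ hd hok ρ
  have hβ0 : 0 ≤ β := by linarith
  have hRR : ∀ x y b, 0 ≤ RR β x y t b := fun x y b => by
    have h := (hS V β q d t hβ0 hok b).2.2.1 x y
    linarith [h.1, h.2]
  have hc : (0 : ℝ) < 2 ^ Fintype.card V := by positivity
  have hKd : 0 ≤ K * β ^ 3 * (d : ℝ) ^ 3 := by positivity
  -- one pair
  have h1 : ∀ x y : V, x ≠ y → |hat (rst ρ (val β t)) {x, y}| ≤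
      (K * β ^ 3 * d ^ 3) * (∑ b, RR β x y t (rp ρ b)) / 2 ^ Fintype.card V := by
    intro x y hxy
    refine (abs_hat_le x y hxy _).trans ?_
    apply div_le_div_of_nonneg_right _ hc.le
    by_cases hx : ρ x = none
    · by_cases hy : ρ y = none
      · have e : ∀ b, DD x y (rst ρ (val β t)) b = DD x y (val β t) (rp ρ b) := by
          intro b
          have e1 := rp_fl_none ρ x hx b
          have e2 := rp_fl_none ρ y hy b
          have e3 : rp ρ (fl x (fl y b)) = fl x (fl y (rp ρ b)) := by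
            rw [rp_fl_none ρ x hx, rp_fl_none ρ y hy]
          change val β t (rp ρ b) - val β t (rp ρ (fl x b)) - val β t (rp ρ (fl y b)) +
            val β t (rp ρ (fl x (fl y b))) = _
          rw [e1, e2, e3]; rfl
        have h2 : ∀ b, |DD x y (rst ρ (val β t)) b| ≤ K * β ^ 3 * d ^ 3 *
            (RR β x y t (rp ρ b) + RR β x y t (rp ρ (fl x b)) +
              RR β x y t (rp ρ (fl y b)) + RR β x y t (rp ρ (fl x (fl y b)))) := by
          intro b
          have h3 := hD V β q d t hβ hd hok x y hxy (rp ρ b)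
          rw [e b, rp_fl_none ρ x hx, rp_fl_none ρ y hy, rp_fl_none ρ x hx, rp_fl_none ρ y hy]
          exact h3
        have h4 : ∑ b, |DD x y (rst ρ (val β t)) b| ≤
            K * β ^ 3 * d ^ 3 * (4 * ∑ b, RR β x y t (rp ρ b)) := by
          refine (Finset.sum_le_sum fun b _ => h2 b).trans ?_
          rw [← Finset.mul_sum]
          apply mul_le_mul_of_nonneg_left _ hKd
          rw [Finset.sum_add_distrib, Finset.sum_add_distrib, Finset.sum_add_distrib]
          have s1 := sum_fl x fun b => RR β x y t (rp ρ b)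
          have s2 := sum_fl y fun b => RR β x y t (rp ρ b)
          have s3 : ∑ b, RR β x y t (rp ρ (fl x (fl y b))) = ∑ b, RR β x y t (rp ρ b) := by
            rw [sum_fl y fun b => RR β x y t (rp ρ (fl x b))]; exact s1
          rw [s1, s2, s3]; linarith
        linarith
      · have e : ∀ b, DD x y (rst ρ (val β t)) b = 0 := by
          intro b
          change val β t (rp ρ b) - val β t (rp ρ (fl x b)) - val β t (rp ρ (fl y b)) +
            val β t (rp ρ (fl x (fl y b))) = _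
          rw [fl_comm x y, rp_fl_some ρ y hy, rp_fl_some ρ y hy]; ring
        simp only [e, abs_zero, Finset.sum_const_zero, zero_div]
        exact mul_nonneg hKd (Finset.sum_nonneg fun b _ => hRR x y _)
    · have e : ∀ b, DD x y (rst ρ (val β t)) b = 0 := by
        intro b
        change val β t (rp ρ b) - val β t (rp ρ (fl x b)) - val β t (rp ρ (fl y b)) +
          val β t (rp ρ (fl x (fl y b))) = _
        rw [rp_fl_some ρ x hx, rp_fl_some ρ x hx]; ring
      simp only [e, abs_zero, Finset.sum_const_zero, zero_div]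
      exact mul_nonneg hKd (Finset.sum_nonneg fun b _ => hRR x y _)
  refine (L12_le_pairs _).trans ?_
  have h5 : ∑ p ∈ (univ : Finset V).offDiag, |hat (rst ρ (val β t)) {p.1, p.2}| ≤
      ∑ p ∈ (univ : Finset V).offDiag,
        (K * β ^ 3 * d ^ 3) * (∑ b, RR β p.1 p.2 t (rp ρ b)) / 2 ^ Fintype.card V := by
    apply Finset.sum_le_sum
    intro p hp
    rw [Finset.mem_offDiag] at hp
    exact h1 p.1 p.2 hp.2.2
  refine h5.trans ?_
  have h6 : ∑ p ∈ (univ : Finset V).offDiag,
        (K * β ^ 3 * d ^ 3) * (∑ b, RR β p.1 p.2 t (rp ρ b)) / 2 ^ Fintype.card V ≤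
      ∑ p : V × V, (K * β ^ 3 * d ^ 3) * (∑ b, RR β p.1 p.2 t (rp ρ b)) / 2 ^ Fintype.card V := by
    apply Finset.sum_le_sum_of_subset_of_nonneg (Finset.subset_univ _)
    intro p _ _
    exact div_nonneg (mul_nonneg hKd (Finset.sum_nonneg fun b _ => hRR _ _ _)) hc.le
  refine h6.trans ?_
  rw [← Finset.sum_div, ← Finset.mul_sum, div_le_iff₀ hc]
  have h7 : ∑ p : V × V, ∑ b, RR β p.1 p.2 t (rp ρ b) =
      ∑ b : V → Bool, ∑ x, ∑ y, RR β x y t (rp ρ b) := by
    rw [Finset.sum_comm]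
    apply Finset.sum_congr rfl
    intro b _
    rw [Fintype.sum_prod_type]
  rw [h7]
  have h8 : ∑ b : V → Bool, ∑ x, ∑ y, RR β x y t (rp ρ b) ≤
      ∑ b : V → Bool, ((d : ℝ) + 1) * (4 * q ^ 2) :=
    Finset.sum_le_sum fun b _ => (hS V β q d t hβ0 hok (rp ρ b)).2.2.2.2
  have hcard : (Fintype.card (V → Bool) : ℝ) = 2 ^ Fintype.card V := by
    rw [Fintype.card_fun, Fintype.card_bool]; push_cast; rfl
  rw [Finset.sum_const, Finset.card_univ, nsmul_eq_mul, hcard] at h8
  have hd1 : (1 : ℝ) ≤ d := by exact_mod_cast hd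
  have h9 : (K * β ^ 3 * (d : ℝ) ^ 3) * ∑ b : V → Bool, ∑ x, ∑ y, RR β x y t (rp ρ b) ≤
      (K * β ^ 3 * (d : ℝ) ^ 3) * (2 ^ Fintype.card V * (((d : ℝ) + 1) * (4 * q ^ 2))) :=
    mul_le_mul_of_nonneg_left h8 hKd
  refine h9.trans ?_
  have h10 : (d : ℝ) + 1 ≤ 2 * d := by linarith
  have h11 : (K * β ^ 3 * (d : ℝ) ^ 3) * (2 ^ Fintype.card V * (((d : ℝ) + 1) * (4 * q ^ 2))) ≤
      (K * β ^ 3 * (d : ℝ) ^ 3) * (2 ^ Fintype.card V * ((2 * d) * (4 * q ^ 2))) := by
    gcongr
  refine h11.trans (le_of_eq ?_)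
  ring

end Pool.Agent.H76.IP
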