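import Pool.Agent.H66.IP.TA
import Pool.Agent.H76.IP.ABS
import Pool.Agent.H76.IP.RTR

/-!
MP_0f8dca_lc, interactive proofs: the value of a game does not distinguish the forrelated and the
uniform distribution of one copy.
-/

set_option autoImplicit false

namespace Pool.Agent.H76.IP

open Finset Pool.Agent.H66.IP
open Pool.Agent.H6.NB (VV rst L12)
open Pool.Agent.H70.EH (mv T_MUV)

/-- ONE: the value of a game as a function of one copy. -/
def T_ONE : Prop := ∀ (q k d w : ℕ) (β : ℝ) (t : Tr (VV q)), 10 ≤ q → 1 ≤ β → 1 ≤ k →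
  t.cc ≤ k → t.dp ≤ d → t.wd ≤ w →
  |∑ p, (mv true q p - mv false q p) * t.ev p| ≤
    k / β + (4000 * β * (k : ℝ) ^ 2 * (d + 1) * (w : ℝ) ^ 2 / √(2 ^ q) + 1 / 2 ^ 2 ^ (q - 2))

theorem pf_ONE (hE : T_EVS) (hG : T_GL2) (hA : T_ABS) (hM : T_MUV) : T_ONE := by
  intro q k d w β t hq hβ hk hcc hdp hwd
  have hβ0 : 0 < β := by linarith
  have hL : ∀ ρ : VV q → Option Bool, L12 (rst ρ (t.sv β)) ≤
      4000 * β * (k : ℝ) ^ 2 * (d + 1) * (w : ℝ) ^ 2 := by
    intro ρ
    obtain ⟨t', h1, h2, h3, _, h5⟩ := pf_RTR (VV q) t ρ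
    have e : rst ρ (t.sv β) = t'.sv β := by funext y; exact (h5 β y).symm
    rw [e]
    exact hG (VV q) β k d w t' hβ hk (h1.trans hcc) (h2.trans hdp) (h3.trans hwd)
  have hsv : ∀ y, |t.sv β y| ≤ 1 := fun y => by
    obtain ⟨a, b, c, _⟩ := hE (VV q) β t y hβ0
    exact abs_le.2 ⟨by linarith, by linarith⟩
  have h1 := hA q (t.sv β) _ hq hL hsv
  have hdiff : ∀ y, 0 ≤ t.ev y - t.sv β y ∧ t.ev y - t.sv β y ≤ k / β := fun y => by
    obtain ⟨a, b, c, e⟩ := hE (VV q) β t y hβ0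
    have h2 : (t.cc : ℝ) / β ≤ k / β := by
      apply div_le_div_of_nonneg_right _ hβ0.le
      exact_mod_cast hcc
    exact ⟨by linarith, by linarith⟩
  have hb : ∀ b : Bool, 0 ≤ ∑ p, mv b q p * (t.ev p - t.sv β p) ∧
      ∑ p, mv b q p * (t.ev p - t.sv β p) ≤ k / β := by
    intro b
    obtain ⟨m0, m1, _⟩ := hM b q
    refine ⟨Finset.sum_nonneg fun p _ => mul_nonneg (m0 p) (hdiff p).1, ?_⟩
    calc ∑ p, mv b q p * (t.ev p - t.sv β p) ≤ ∑ p, mv b q p * (k / β) :=
          Finset.sum_le_sum fun p _ => mul_le_mul_of_nonneg_left (hdiff p).2 (m0 p)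
      _ = k / β := by rw [← Finset.sum_mul, m1, one_mul]
  have e : ∑ p, (mv true q p - mv false q p) * t.ev p =
      ∑ p, (mv true q p - mv false q p) * t.sv β p +
        (∑ p, mv true q p * (t.ev p - t.sv β p) - ∑ p, mv false q p * (t.ev p - t.sv β p)) := by
    rw [← Finset.sum_sub_distrib, ← Finset.sum_add_distrib]
    apply Finset.sum_congr rfl
    intro p _
    ring
  rw [e]
  refine (abs_add_le _ _).trans ?_
  have h3 : |∑ p, mv true q p * (t.ev p - t.sv β p) - ∑ p, mv false q p * (t.ev p - t.sv β p)| ≤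
      k / β := by
    rw [abs_le]
    have := hb true
    have := hb false
    constructor <;> linarith [(hb true).1, (hb true).2, (hb false).1, (hb false).2]
  linarith

end Pool.Agent.H76.IP
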